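import Pool.Agent.Lib.MP_79fcf0_nt.GPFinal

namespace Pool.Agent.Results.MP_79fcf0_nt.Mod24

open Pool.Agent.Lib.MP_79fcf0_nt

/-- For primes `p ≡ 1 (mod 24)`: `N(p) ≥ (3/4 - o(1)) log₂ p`. -/
theorem result : ∀ ε : ℝ, 0 < ε → ∃ p₀ : ℕ, ∀ p : ℕ, p.Prime → p % 24 = 1 → p₀ ≤ p →
    ∃ S : Finset (ZMod p), Admissible S ∧ (3 / 4 - ε) * Real.logb 2 p ≤ S.card := main_six

end Pool.Agent.Results.MP_79fcf0_nt.Mod24
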