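import Pool.Agent.Lib.MP_79fcf0_nt.GPFinal

namespace Pool.Agent.Results.MP_79fcf0_nt.Roots

open Pool.Agent.Lib.MP_79fcf0_nt

/-- If a primitive `m`-th root of unity `ζ` modulo `p` and all `1 - ζ ^ a` are squares, then
`N(p) ≥ (m ^ 2 / (2 J₂(m)) - o(1)) log₂ p`. -/
theorem result : ∀ m : ℕ, 0 < m → ∀ ε : ℝ, 0 < ε → ∃ p₀ : ℕ, ∀ p : ℕ, p.Prime → p % 4 = 1 →
    p₀ ≤ p → ∀ ζ : ZMod p, IsPrimitiveRoot ζ m → IsSquare ζ →
      (∀ a, 0 < a → a < m → IsSquare (1 - ζ ^ a)) →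
      ∃ S : Finset (ZMod p), Admissible S ∧
        ((m : ℝ) ^ 2 / (2 * jordan m) - ε) * Real.logb 2 p ≤ S.card := main_roots

end Pool.Agent.Results.MP_79fcf0_nt.Roots
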